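import Pool.Agent.Helper59.RD.St.B0
import Pool.Agent.Helper59.RD.St.B2b
import Pool.Agent.Helper59.RD.St.B3
import Pool.Agent.Helper59.RD.St.B4

/-!
# Module B: a small nonzero point of a differential ideal that is not isolated at zero

If a prime `Q ⊇ I` is strictly smaller than the ideal of all differential polynomials without
constant term, then for every `N` there is a differential field `L` with a real nonarchimedean
absolute value, trivial on `K`, with `v (d a) ≤ e * v a`, and a zero of `I` in `L`, different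
from zero, with coordinates of absolute value at most `exp (-N)`.
-/

namespace Pool.Agent.Helper59.RD

open MvPolynomial

theorem iterate_mem {R : Type} [CommRing R] (D : Derivation ℤ R R) (J : Ideal R)
    (hJ : ∀ f ∈ J, D f ∈ J) (f : R) (hf : f ∈ J) (k : ℕ) : (⇑D)^[k] f ∈ J := by
  induction k with
  | zero => exact hf
  | succ k ih => rw [Function.iterate_succ_apply']; exact hJ _ ih

theorem smul_mem' {R : Type} [CommRing R] [Algebra ℚ R] (J : Ideal R) (q : ℚ) (f : R)
    (hf : f ∈ J) : q • f ∈ J := by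
  rw [Algebra.smul_def]
  exact J.mul_mem_left _ hf

/-- The general form: an arbitrary differential `ℚ`-algebra `R` with elements `x j k`,
`D (x j k) = x j (k + 1)`, in a prime `P`, and a prime `Q ≤ P` that does not contain all of them. -/
theorem core {R : Type} [CommRing R] [Algebra ℚ R] (D : Derivation ℤ R R) {n : ℕ}
    (x : Fin n → ℕ → R) (hX : ∀ (j : Fin n) (k : ℕ), D (x j k) = x j (k + 1))
    (I Q P₀ : Ideal R) (hI : ∀ f ∈ I, D f ∈ I) (hprime : Q.IsPrime) (hIQ : I ≤ Q)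
    (hP₀prime : P₀.IsPrime) (hQP₀ : Q ≤ P₀) (hxP : ∀ j k, x j k ∈ P₀)
    (hsmall : ¬ ∀ j k, x j k ∈ Q) (N : ℕ) :
    ∃ (L : Type) (_ : Field L) (_ : CharZero L) (d : Derivation ℤ L L)
      (φ : R →+* L) (v : AbsoluteValue L ℝ),
      IsNonarchimedean v ∧ (∀ f, φ (D f) = d (φ f)) ∧ (∀ f ∈ I, φ f = 0) ∧
      (∀ c : R, c ∉ P₀ → v (φ c) = 1) ∧ (∀ a, v (d a) ≤ Real.exp 1 * v a) ∧
      (∀ j, v (φ (x j 0)) ≤ Real.exp (-(N : ℝ))) ∧ ∃ j, φ (x j 0) ≠ 0 := by
  classical
  obtain ⟨T, hT⟩ := exists_taylor D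
  have hT0 : ∀ f, PowerSeries.coeff 0 (T f) = f := by
    intro f
    rw [hT]
    simp
  have hTD : ∀ (f : R) (k : ℕ),
      PowerSeries.coeff k (T (D f)) = ((k + 1 : ℕ) : R) * PowerSeries.coeff (k + 1) (T f) := by
    intro f k
    rw [hT, hT, Function.iterate_succ_apply]
    rw [Algebra.smul_def, Algebra.smul_def, ← mul_assoc]
    congr 1
    rw [← map_natCast (algebraMap ℚ R), ← map_mul]
    congr 1
    rw [Nat.factorial_succ]
    push_cast
    have h1 : ((k : ℚ) + 1) ≠ 0 := by positivity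
    have h2 : ((k.factorial : ℕ) : ℚ) ≠ 0 := by exact_mod_cast k.factorial_ne_zero
    field_simp
  -- the differential prime
  let ψ : R →+* PowerSeries (R ⧸ Q) := (PowerSeries.map (Ideal.Quotient.mk Q)).comp T
  have hψ : ∀ f : R, f ∈ RingHom.ker ψ ↔ ∀ k, PowerSeries.coeff k (T f) ∈ Q := by
    intro f
    rw [RingHom.mem_ker]
    constructor
    · intro h k
      have := congrArg (PowerSeries.coeff k) h
      rw [RingHom.comp_apply, PowerSeries.coeff_map, map_zero] at this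
      exact Ideal.Quotient.eq_zero_iff_mem.1 this
    · intro h
      ext k
      rw [RingHom.comp_apply, PowerSeries.coeff_map, map_zero]
      exact Ideal.Quotient.eq_zero_iff_mem.2 (h k)
  set Q' : Ideal R := RingHom.ker ψ with hQ'
  have hQ'prime : Q'.IsPrime := RingHom.ker_isPrime ψ
  have hQ'Q : Q' ≤ Q := fun f hf => by
    have := (hψ f).1 hf 0
    rwa [hT0] at this
  have hQ'D : ∀ f ∈ Q', D f ∈ Q' := by
    intro f hf
    rw [hψ] at hf ⊢
    intro k
    rw [hTD]
    exact Q.mul_mem_left _ (hf _)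
  have hIQ' : I ≤ Q' := by
    intro f hf
    rw [hψ]
    intro k
    rw [hT]
    exact hIQ (smul_mem' I _ _ (iterate_mem D I hI f hf k))
  have hQ'P : Q' ≤ P₀ := hQ'Q.trans hQP₀
  have hXit : ∀ (j : Fin n) (k : ℕ), (⇑D)^[k] (x j 0) = x j k := by
    intro j k
    induction k with
    | zero => rfl
    | succ k ih => rw [Function.iterate_succ_apply', ih, hX]
  have hsome : ∃ j : Fin n, x j 0 ∉ Q' := by
    by_contra hcon
    push Not at hcon
    refine hsmall fun j k => hQ'Q ?_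
    rw [← hXit]
    exact iterate_mem D Q' hQ'D _ (hcon j) k
  -- the seminorm
  let S : Finset R := (Finset.univ ×ˢ Finset.range (N + 1)).image
    fun y : Fin n × ℕ => x y.1 y.2
  have hS : ∀ a ∈ S, a ∈ P₀ := by
    intro a ha
    obtain ⟨y, -, rfl⟩ := Finset.mem_image.1 ha
    exact hxP _ _
  have hS' : ∃ a ∈ S, a ∉ Q' := by
    obtain ⟨j, hj⟩ := hsome
    exact ⟨_, Finset.mem_image.2 ⟨(j, 0), by simp, rfl⟩, hj⟩
  obtain ⟨ν, hnn, hle1, hν0, hν1, hνmul, hνadd, hνQ, hνP, hνS, a₀, ha₀S, ha₀⟩ :=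
    exists_nu Q' P₀ hQ'prime hP₀prime hQ'P S hS hS' ((N : ℝ) + 1) (by positivity)
  have hr0 : (0 : ℝ) < Real.exp (-1) := Real.exp_pos _
  have hr1 : Real.exp (-1) < 1 := by
    rw [Real.exp_lt_one_iff]
    norm_num
  have hνq : ∀ (q : ℚ) (f : R), q ≠ 0 → ν (q • f) = ν f := by
    intro q f hq
    rw [Algebra.smul_def, hνmul, hνP, one_mul]
    intro h
    apply hP₀prime.ne_top
    rw [Ideal.eq_top_iff_one]
    have : (1 : R) = algebraMap ℚ R q⁻¹ * algebraMap ℚ R q := by
      rw [← map_mul, inv_mul_cancel₀ hq, map_one]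
    rw [this]
    exact P₀.mul_mem_left _ h
  let μ : R → ℝ := fun f => gn ν (Real.exp (-1)) (T f)
  have hle : ∀ (f : R) (k : ℕ),
      ν (PowerSeries.coeff k (T f)) * Real.exp (-1) ^ k ≤ μ f := fun f k =>
    le_gn ν hnn hle1 _ hr0 hr1 (T f) k
  have hμnn : ∀ a, 0 ≤ μ a := by
    intro a
    refine le_trans ?_ (hle a 0)
    have := hnn (PowerSeries.coeff 0 (T a))
    positivity
  have hμle : ∀ (f : R) (B : ℝ),
      (∀ k, ν (PowerSeries.coeff k (T f)) * Real.exp (-1) ^ k ≤ B) → μ f ≤ B := fun f B hB =>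
    gn_le ν hnn hle1 _ hr0 hr1 (T f) B hB
  have hμzero : ∀ f : R, (∀ k, ν (PowerSeries.coeff k (T f)) = 0) → μ f = 0 := by
    intro f hf
    refine le_antisymm (hμle f 0 fun k => ?_) (hμnn f)
    rw [hf, zero_mul]
  have hμ0 : μ 0 = 0 := by
    apply hμzero
    intro k
    rw [map_zero, map_zero, hν0]
  have hμ1 : μ 1 = 1 := by
    change gn ν _ (T 1) = 1
    rw [map_one]
    exact gn_one ν hnn hle1 hν0 hν1 hνmul hνadd _ hr0 hr1
  have hμmul : ∀ a b, μ (a * b) = μ a * μ b := by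
    intro a b
    change gn ν _ (T (a * b)) = _
    rw [map_mul]
    exact gn_mul ν hnn hle1 hν0 hν1 hνmul hνadd _ hr0 hr1 _ _
  have hμadd : ∀ a b, μ (a + b) ≤ max (μ a) (μ b) := by
    intro a b
    change gn ν _ (T (a + b)) ≤ _
    rw [map_add]
    exact gn_add ν hnn hle1 hν0 hν1 hνmul hνadd _ hr0 hr1 _ _
  have hμD : ∀ a, μ (D a) ≤ Real.exp 1 * μ a := by
    intro a
    refine hμle _ _ fun k => ?_
    rw [hTD, hνmul]
    have h1 : ν ((k + 1 : ℕ) : R) ≤ 1 := hle1 _
    have h2 := hle a (k + 1)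
    have h3 : Real.exp (-1) ^ k = Real.exp 1 * Real.exp (-1) ^ (k + 1) := by
      rw [pow_succ, mul_comm (Real.exp (-1) ^ k), ← mul_assoc, ← Real.exp_add]
      simp
    have h4 := hnn (PowerSeries.coeff (k + 1) (T a))
    have h5 : (0 : ℝ) < Real.exp (-1) ^ k := by positivity
    calc ν ((k + 1 : ℕ) : R) * ν (PowerSeries.coeff (k + 1) (T a)) * Real.exp (-1) ^ k
        ≤ 1 * ν (PowerSeries.coeff (k + 1) (T a)) * Real.exp (-1) ^ k := by
          apply mul_le_mul_of_nonneg_right _ h5.le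
          exact mul_le_mul_of_nonneg_right h1 h4
      _ = Real.exp 1 * (ν (PowerSeries.coeff (k + 1) (T a)) * Real.exp (-1) ^ (k + 1)) := by
          rw [h3]; ring
      _ ≤ Real.exp 1 * μ a := mul_le_mul_of_nonneg_left h2 (Real.exp_pos _).le
  have hμC : ∀ c : R, c ∉ P₀ → μ c = 1 := by
    intro c hc
    refine le_antisymm (hμle _ _ fun k => ?_) ?_
    · have h1 := hle1 (PowerSeries.coeff k (T c))
      have h2 : Real.exp (-1) ^ k ≤ 1 := pow_le_one₀ hr0.le hr1.le
      have h3 : (0 : ℝ) ≤ Real.exp (-1) ^ k := by positivity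
      calc _ ≤ 1 * 1 := mul_le_mul h1 h2 h3 zero_le_one
        _ = 1 := one_mul 1
    · have := hle c 0
      rw [hT0, hνP c hc] at this
      simpa using this
  obtain ⟨L, hL, d, φ, v, hvna, hφD, hvφ, hvd⟩ :=
    exists_field D μ hμnn hμ0 hμ1 hμmul hμadd (Real.exp 1)
      (Real.one_le_exp zero_le_one) hμD
  have hchar : CharZero L := by
    refine charZero_of_inj_zero fun m hm => ?_
    by_contra hne
    have h0 : (m : R) ∉ P₀ := by
      intro h
      apply hP₀prime.ne_top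
      rw [Ideal.eq_top_iff_one]
      have : (1 : R) = algebraMap ℚ R (m : ℚ)⁻¹ * (m : R) := by
        rw [← map_natCast (algebraMap ℚ R), ← map_mul, inv_mul_cancel₀, map_one]
        exact_mod_cast hne
      rw [this]
      exact P₀.mul_mem_left _ h
    have h1 : v (φ (m : R)) = 1 := by
      rw [hvφ]
      exact hμC _ h0
    rw [map_natCast, hm, map_zero] at h1
    exact zero_ne_one h1
  refine ⟨L, hL, hchar, d, φ, v, hvna, hφD, ?_, ?_, hvd, ?_, ?_⟩
  · intro f hf
    rw [← v.eq_zero, hvφ]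
    apply hμzero
    intro k
    rw [hT]
    exact hνQ _ (hIQ' (smul_mem' I _ _ (iterate_mem D I hI f hf k)))
  · intro c hc
    rw [hvφ]
    exact hμC c hc
  · intro j
    rw [hvφ]
    refine hμle _ _ fun k => ?_
    rw [hT, hXit, hνq _ _ (by positivity)]
    rcases Nat.lt_or_ge k (N + 1) with hk | hk
    · have h1 : ν (x j k) ≤ Real.exp (-((N : ℝ) + 1)) :=
        hνS _ (Finset.mem_image.2 ⟨(j, k), by simp [hk], rfl⟩)
      have h2 : Real.exp (-1) ^ k ≤ 1 := pow_le_one₀ hr0.le hr1.le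
      have h3 : (0 : ℝ) ≤ Real.exp (-1) ^ k := by positivity
      calc _ ≤ Real.exp (-((N : ℝ) + 1)) * 1 := mul_le_mul h1 h2 h3 (Real.exp_pos _).le
        _ ≤ Real.exp (-(N : ℝ)) := by
          rw [mul_one]
          apply Real.exp_le_exp.2
          linarith
    · have h1 : ν (x j k) ≤ 1 := hle1 _
      have h2 : Real.exp (-1) ^ k ≤ Real.exp (-(N : ℝ)) := by
        rw [← Real.exp_nat_mul]
        apply Real.exp_le_exp.2
        have : (N : ℝ) ≤ k := by exact_mod_cast (by omega : N ≤ k)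
        linarith
      have h3 : (0 : ℝ) ≤ Real.exp (-1) ^ k := by positivity
      calc _ ≤ 1 * Real.exp (-(N : ℝ)) := mul_le_mul h1 h2 h3 zero_le_one
        _ = _ := one_mul _
  · obtain ⟨⟨j, k⟩, -, rfl⟩ := Finset.mem_image.1 ha₀S
    refine ⟨j, fun h => ?_⟩
    have h1 : μ (x j 0) = 0 := by
      rw [← hvφ, h, map_zero]
    have h2 := hle (x j 0) k
    rw [h1, hT, hXit, hνq _ _ (by positivity)] at h2
    have h4 : ν (x j k) = Real.exp (-((N : ℝ) + 1)) := ha₀
    rw [h4] at h2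
    have h3 : 0 < Real.exp (-((N : ℝ) + 1)) * Real.exp (-1) ^ k := by positivity
    linarith

theorem exists_small_point {K : Type} [Field K] [CharZero K] [Differential K] {n : ℕ}
    (D : Derivation ℤ (MvPolynomial (Fin n × ℕ) K) (MvPolynomial (Fin n × ℕ) K))
    (_hC : ∀ a : K, D (C a) = C (Differential.deriv a))
    (hX : ∀ (j : Fin n) (k : ℕ), D (X (j, k)) = X (j, k + 1))
    (I : Ideal (MvPolynomial (Fin n × ℕ) K)) (hI : ∀ f ∈ I, D f ∈ I)
    (Q : Ideal (MvPolynomial (Fin n × ℕ) K)) (hprime : Q.IsPrime) (hIQ : I ≤ Q)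
    (hQ : Q < RingHom.ker (constantCoeff : MvPolynomial (Fin n × ℕ) K →+* K)) (N : ℕ) :
    ∃ (L : Type) (_ : Field L) (_ : CharZero L) (d : Derivation ℤ L L)
      (φ : MvPolynomial (Fin n × ℕ) K →+* L) (v : AbsoluteValue L ℝ),
      IsNonarchimedean v ∧ (∀ f, φ (D f) = d (φ f)) ∧ (∀ f ∈ I, φ f = 0) ∧
      (∀ c : K, c ≠ 0 → v (φ (C c)) = 1) ∧ (∀ a, v (d a) ≤ Real.exp 1 * v a) ∧
      (∀ j, v (φ (X (j, 0))) ≤ Real.exp (-(N : ℝ))) ∧ ∃ j, φ (X (j, 0)) ≠ 0 := by
  have hsmall : ¬ ∀ (j : Fin n) (k : ℕ), (X (j, k) : MvPolynomial (Fin n × ℕ) K) ∈ Q := by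
    intro hall
    have heq : Ideal.Quotient.mk Q =
        ((Ideal.Quotient.mk Q).comp (C : K →+* MvPolynomial (Fin n × ℕ) K)).comp
          (constantCoeff : MvPolynomial (Fin n × ℕ) K →+* K) := by
      refine MvPolynomial.ringHom_ext (fun r => ?_) (fun x => ?_)
      · simp
      · rw [Ideal.Quotient.eq_zero_iff_mem.2 (hall x.1 x.2)]
        simp
    have hle : RingHom.ker (constantCoeff : MvPolynomial (Fin n × ℕ) K →+* K) ≤ Q := by
      intro f hf
      rw [← Ideal.Quotient.eq_zero_iff_mem, heq]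
      rw [RingHom.mem_ker] at hf
      simp [hf]
    exact absurd hle (not_le_of_gt hQ)
  obtain ⟨L, hL, hchar, d, φ, v, h1, h2, h3, h4, h5, h6, h7⟩ :=
    core (R := MvPolynomial (Fin n × ℕ) K) D (fun j k => X (j, k)) hX I Q
      (RingHom.ker (constantCoeff : MvPolynomial (Fin n × ℕ) K →+* K)) hI hprime hIQ
      (RingHom.ker_isPrime _) hQ.le (fun j k => by rw [RingHom.mem_ker]; simp) hsmall N
  exact ⟨L, hL, hchar, d, φ, v, h1, h2, h3,
    fun c hc => h4 _ (by rw [RingHom.mem_ker]; simpa using hc), h5, h6, h7⟩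

end Pool.Agent.Helper59.RD
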